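import Pool.Agent.Helper23.GK.StG

/-!
# Project GK (MP_b454d1_nt), module FN1: circle method assembly for one value of `H`.
-/

set_option autoImplicit false

namespace Pool.Agent.Helper57.GK

open Finset ArithmeticFunction
open Pool.Agent.Helper48.BK (ex th Sx Apx)
open Pool.Agent.Helper23.GK

private theorem fn1_pow (c L : ℝ) (a b : ℕ) (h1 : 1 ≤ L) (hc : c ≤ L) (hab : a + 1 ≤ b) :
    c * L ^ a ≤ L ^ b := by
  calc c * L ^ a ≤ L * L ^ a := by gcongr
    _ = L ^ (a + 1) := by ring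
    _ ≤ L ^ b := pow_le_pow_right₀ h1 hab

private theorem fn1_markov2 (s : Finset ℕ) (f : ℕ → ℝ) (T : ℝ) (hT : 0 < T) :
    ((s.filter (fun N => T < |f N|)).card : ℝ) * T ^ 2 ≤ ∑ N ∈ s, f N ^ 2 := by
  calc ((s.filter (fun N => T < |f N|)).card : ℝ) * T ^ 2
      = ∑ N ∈ s.filter (fun N => T < |f N|), T ^ 2 := by
        simp [Finset.sum_const, nsmul_eq_mul]
    _ ≤ ∑ N ∈ s.filter (fun N => T < |f N|), f N ^ 2 := by
        apply Finset.sum_le_sum
        intro N hN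
        have h := (Finset.mem_filter.mp hN).2
        rw [← sq_abs (f N)]
        gcongr
    _ ≤ ∑ N ∈ s, f N ^ 2 :=
        Finset.sum_le_sum_of_subset_of_nonneg (Finset.filter_subset _ _)
          (fun _ _ _ => sq_nonneg _)

private theorem fn1_markov1 (s : Finset ℕ) (f : ℕ → ℝ) (T : ℝ) :
    ((s.filter (fun N => T < |f N|)).card : ℝ) * T ≤ ∑ N ∈ s, |f N| := by
  calc ((s.filter (fun N => T < |f N|)).card : ℝ) * T
      = ∑ N ∈ s.filter (fun N => T < |f N|), T := by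
        simp [Finset.sum_const, nsmul_eq_mul]
    _ ≤ ∑ N ∈ s.filter (fun N => T < |f N|), |f N| := by
        apply Finset.sum_le_sum
        intro N hN
        exact (Finset.mem_filter.mp hN).2.le
    _ ≤ ∑ N ∈ s, |f N| :=
        Finset.sum_le_sum_of_subset_of_nonneg (Finset.filter_subset _ _)
          (fun _ _ _ => abs_nonneg _)

private theorem fn1_th_nonneg (n : ℕ) : 0 ≤ th n := by
  unfold th
  split_ifs with h
  · exact Real.log_nonneg (by exact_mod_cast h.one_lt.le)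
  · exact le_refl _

private theorem fn1_th_le (n Y : ℕ) (hn : n ≤ Y) (hY : 1 ≤ Y) : th n ≤ Real.log Y := by
  unfold th
  split_ifs with h
  · apply Real.log_le_log
    · exact_mod_cast h.pos
    · exact_mod_cast hn
  · exact Real.log_nonneg (by exact_mod_cast hY)

private theorem fn1_p1 (hCnv : StCnv) (f : ℕ → ℝ) (X H : ℕ) (D : ℝ)
    (hHX : H ≤ X) (hX : 1 ≤ X) (hf : ∀ α, ‖Sx f H α‖ ≤ D) :
    ∑ N ∈ Ioc X (2 * X), (∑ n ∈ Ioc 0 H, f n * th (N - n)) ^ 2 ≤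
      D ^ 2 * (2 * X * Real.log (2 * X) ^ 2) := by
  have h1 := hCnv f th (2 * X) H D hf
  have h2 : ∑ N ∈ Ioc X (2 * X), (∑ n ∈ Ioc 0 H, f n * th (N - n)) ^ 2 ≤
      ∑ N ∈ Ioc 0 (2 * X), (∑ n ∈ (Ioc 0 H).filter (fun n => n < N), f n * th (N - n)) ^ 2 := by
    calc ∑ N ∈ Ioc X (2 * X), (∑ n ∈ Ioc 0 H, f n * th (N - n)) ^ 2
        = ∑ N ∈ Ioc X (2 * X), (∑ n ∈ (Ioc 0 H).filter (fun n => n < N), f n * th (N - n)) ^ 2 := by
          apply Finset.sum_congr rfl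
          intro N hN
          have hN' := Finset.mem_Ioc.mp hN
          rw [Finset.filter_true_of_mem]
          intro n hn
          have hn' := Finset.mem_Ioc.mp hn
          omega
      _ ≤ _ := by
          apply Finset.sum_le_sum_of_subset_of_nonneg
          · intro N hN
            have hN' := Finset.mem_Ioc.mp hN
            exact Finset.mem_Ioc.mpr ⟨by omega, hN'.2⟩
          · intro _ _ _
            exact sq_nonneg _
  refine h2.trans (h1.trans ?_)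
  apply mul_le_mul_of_nonneg_left _ (sq_nonneg D)
  calc ∑ n ∈ Ioc 0 (2 * X), th n ^ 2 ≤ ∑ n ∈ Ioc 0 (2 * X), Real.log (2 * X) ^ 2 := by
        apply Finset.sum_le_sum
        intro n hn
        have hn' := Finset.mem_Ioc.mp hn
        have h3 := fn1_th_le n (2 * X) hn'.2 (by omega)
        have h4 := fn1_th_nonneg n
        push_cast at h3
        gcongr
    _ = 2 * X * Real.log (2 * X) ^ 2 := by
        simp [Finset.sum_const, nsmul_eq_mul]

/-- discrepancy of `(M, M + H]` -/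
private noncomputable def DD (H q u M : ℕ) : ℝ :=
  ∑ m ∈ (Ioc M (M + H)).filter (fun m => m ≡ u [MOD q]), th m -
    (if Nat.Coprime u q then (H : ℝ) / Nat.totient q else 0)

private theorem fn1_EE (N H q u : ℕ) (hN : H < N) : EE N H q u = DD H q u (N - H - 1) := by
  unfold EE DD
  have h : Ico (N - H) N = Ioc (N - H - 1) (N - H - 1 + H) := by
    ext m
    simp only [Finset.mem_Ico, Finset.mem_Ioc]
    omega
  rw [h]

private theorem fn1_p2 (X H q u : ℕ) (hH : 4 * H ≤ X) (hX : 16 ≤ X) :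
    ∑ N ∈ Ioc X (2 * X), EE N H q u ^ 2 ≤
      ∑ M ∈ Ioc (X / 2) (2 * (X / 2)), DD H q u M ^ 2 +
      ∑ M ∈ Ioc (X / 2 + 1) (2 * (X / 2 + 1)), DD H q u M ^ 2 +
      ∑ M ∈ Ioc X (2 * X), DD H q u M ^ 2 := by
  have h1 : ∑ N ∈ Ioc X (2 * X), EE N H q u ^ 2 =
      ∑ M ∈ (Ioc X (2 * X)).image (fun N => N - H - 1), DD H q u M ^ 2 := by
    rw [Finset.sum_image]
    · apply Finset.sum_congr rfl
      intro N hN
      have hN' := Finset.mem_Ioc.mp hN
      rw [fn1_EE N H q u (by omega)]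
    · intro a ha b hb hab
      have ha' := Finset.mem_Ioc.mp (Finset.mem_coe.mp ha)
      have hb' := Finset.mem_Ioc.mp (Finset.mem_coe.mp hb)
      simp only at hab
      omega
  rw [h1]
  have h2 : (Ioc X (2 * X)).image (fun N => N - H - 1) ⊆
      (Ioc (X / 2) (2 * (X / 2)) ∪ Ioc (X / 2 + 1) (2 * (X / 2 + 1))) ∪ Ioc X (2 * X) := by
    intro M hM
    obtain ⟨N, hN, rfl⟩ := Finset.mem_image.mp hM
    have hN' := Finset.mem_Ioc.mp hN
    simp only [Finset.mem_union, Finset.mem_Ioc]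
    omega
  refine (Finset.sum_le_sum_of_subset_of_nonneg h2 (fun _ _ _ => sq_nonneg _)).trans ?_
  have h3 : ∀ s t : Finset ℕ, ∑ M ∈ s ∪ t, DD H q u M ^ 2 ≤
      ∑ M ∈ s, DD H q u M ^ 2 + ∑ M ∈ t, DD H q u M ^ 2 := by
    intro s t
    rw [← Finset.sum_union_inter]
    have : 0 ≤ ∑ M ∈ s ∩ t, DD H q u M ^ 2 := Finset.sum_nonneg (fun _ _ => sq_nonneg _)
    linarith
  have h4 := h3 (Ioc (X / 2) (2 * (X / 2)) ∪ Ioc (X / 2 + 1) (2 * (X / 2 + 1))) (Ioc X (2 * X))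
  have h5 := h3 (Ioc (X / 2) (2 * (X / 2))) (Ioc (X / 2 + 1) (2 * (X / 2 + 1)))
  linarith

private theorem fn1_p2' (X H Q : ℕ) (E : ℝ)
    (hE : ∀ q u : ℕ, 1 ≤ q → q ≤ Q → ∑ N ∈ Ioc X (2 * X), EE N H q u ^ 2 ≤ E) (hE0 : 0 ≤ E) :
    ∑ N ∈ Ioc X (2 * X), (∑ q ∈ Icc 1 Q, ∑ u ∈ range q, |EE N H q u|) ^ 2 ≤
      (Q : ℝ) ^ 2 * ((Q : ℝ) ^ 2 * E) := by
  have hcard : (((Icc 1 Q).sigma (fun q => range q)).card : ℝ) ≤ (Q : ℝ) ^ 2 := by
    rw [Finset.card_sigma]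
    push_cast
    calc ∑ q ∈ Icc 1 Q, ((range q).card : ℝ) ≤ ∑ q ∈ Icc 1 Q, (Q : ℝ) := by
          apply Finset.sum_le_sum
          intro q hq
          have := (Finset.mem_Icc.mp hq).2
          rw [Finset.card_range]
          exact_mod_cast this
      _ = (Q : ℝ) ^ 2 := by
          simp [Finset.sum_const, nsmul_eq_mul]
          ring
  have h1 : ∀ N, (∑ q ∈ Icc 1 Q, ∑ u ∈ range q, |EE N H q u|) ^ 2 ≤
      (Q : ℝ) ^ 2 * ∑ z ∈ (Icc 1 Q).sigma (fun q => range q), EE N H z.1 z.2 ^ 2 := by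
    intro N
    have h2 : ∑ q ∈ Icc 1 Q, ∑ u ∈ range q, |EE N H q u| =
        ∑ z ∈ (Icc 1 Q).sigma (fun q => range q), |EE N H z.1 z.2| := by
      rw [Finset.sum_sigma]
    rw [h2]
    have h3 := sq_sum_le_card_mul_sum_sq (s := (Icc 1 Q).sigma (fun q => range q))
      (f := fun z => |EE N H z.1 z.2|)
    refine h3.trans ?_
    have h4 : ∑ z ∈ (Icc 1 Q).sigma (fun q => range q), |EE N H z.1 z.2| ^ 2 =
        ∑ z ∈ (Icc 1 Q).sigma (fun q => range q), EE N H z.1 z.2 ^ 2 := by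
      apply Finset.sum_congr rfl
      intro z _
      rw [sq_abs]
    rw [h4]
    apply mul_le_mul_of_nonneg_right hcard
    exact Finset.sum_nonneg (fun _ _ => sq_nonneg _)
  calc ∑ N ∈ Ioc X (2 * X), (∑ q ∈ Icc 1 Q, ∑ u ∈ range q, |EE N H q u|) ^ 2
      ≤ ∑ N ∈ Ioc X (2 * X),
        (Q : ℝ) ^ 2 * ∑ z ∈ (Icc 1 Q).sigma (fun q => range q), EE N H z.1 z.2 ^ 2 :=
        Finset.sum_le_sum (fun N _ => h1 N)
    _ = (Q : ℝ) ^ 2 * ∑ z ∈ (Icc 1 Q).sigma (fun q => range q),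
          ∑ N ∈ Ioc X (2 * X), EE N H z.1 z.2 ^ 2 := by
        rw [← Finset.mul_sum, Finset.sum_comm]
    _ ≤ (Q : ℝ) ^ 2 * ∑ z ∈ (Icc 1 Q).sigma (fun q => range q), E := by
        gcongr with z hz
        have hz' := Finset.mem_sigma.mp hz
        have hq := Finset.mem_Icc.mp hz'.1
        exact hE z.1 z.2 hq.1 hq.2
    _ ≤ (Q : ℝ) ^ 2 * ((Q : ℝ) ^ 2 * E) := by
        rw [Finset.sum_const, nsmul_eq_mul]
        gcongr

private theorem fn1_log2 (X : ℕ) (s L : ℝ) (Y : ℝ) (hs : s = √(X : ℝ)) (hL : L = Real.log X)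
    (hs1 : 1 ≤ s) (hY : s ≤ Y) : L / 2 ≤ Real.log Y := by
  have hX : (0 : ℝ) ≤ X := Nat.cast_nonneg X
  have h1 : Real.log s = L / 2 := by
    rw [hs, hL, Real.log_sqrt hX]
  rw [← h1]
  exact Real.log_le_log (by linarith) hY

/-- Module FN1. -/
theorem hFN1 (hWin : StWin) (hDvq : StDvq) (hCnv : StCnv) (hMnq : StMnq) (hSsc : StSsc) :
    StFn1 := by
  intro A K
  obtain ⟨B, x₀, hB, hD⟩ := hDvq (2 * A + 6) (4 * A + 20)
  obtain ⟨C, hC, hS⟩ := hSsc
  obtain ⟨Y0, hW⟩ := hWin (3 * A + 4 * B + 5) (B + 2) (2 * K)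
  obtain ⟨M, hM1, hM2, hM3, hM4, hM5⟩ : ∃ M : ℝ, 4 ≤ M ∧
      216 * ((K : ℝ) + 2) ^ 2 * 4 ^ (2 * A + 6) ≤ M ∧
      81 * (2 : ℝ) ^ (3 * A + 4 * B + 5) ≤ M ∧
      18 * K * C * 2 ^ (2 * A + 10) ≤ M ∧ (2 : ℝ) ^ (B + 2) ≤ M := by
    refine ⟨4 + 216 * ((K : ℝ) + 2) ^ 2 * 4 ^ (2 * A + 6) + 81 * (2 : ℝ) ^ (3 * A + 4 * B + 5) +
      18 * K * C * 2 ^ (2 * A + 10) + (2 : ℝ) ^ (B + 2), ?_, ?_, ?_, ?_, ?_⟩ <;>
    · have h1 : 0 ≤ 216 * ((K : ℝ) + 2) ^ 2 * 4 ^ (2 * A + 6) := by positivity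
      have h2 : 0 ≤ 81 * (2 : ℝ) ^ (3 * A + 4 * B + 5) := by positivity
      have h3 : 0 ≤ 18 * K * C * 2 ^ (2 * A + 10) := by positivity
      have h4 : 0 ≤ (2 : ℝ) ^ (B + 2) := by positivity
      linarith
  have e1 : ∀ᶠ X : ℕ in Filter.atTop, M ≤ Real.log X :=
    (Real.tendsto_log_atTop.comp tendsto_natCast_atTop_atTop).eventually_ge_atTop M
  have e2 : ∀ᶠ X : ℕ in Filter.atTop, 4 * ((K : ℝ) + 1) + 4 + x₀ ≤ √(X : ℝ) :=
    (Real.tendsto_sqrt_atTop.comp tendsto_natCast_atTop_atTop).eventually_ge_atTop _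
  have e3 : ∀ᶠ X : ℕ in Filter.atTop, 2 * Y0 + 16 ≤ X := Filter.eventually_ge_atTop _
  obtain ⟨X0, h⟩ := Filter.eventually_atTop.mp (e1.and (e2.and e3))
  refine ⟨X0, fun X hX H hH => ?_⟩
  obtain ⟨hL, hs, hX1⟩ := h X hX
  obtain ⟨s, hsd⟩ : ∃ s : ℝ, s = √(X : ℝ) := ⟨_, rfl⟩
  obtain ⟨L, hLd⟩ : ∃ L : ℝ, L = Real.log X := ⟨_, rfl⟩
  rw [← hsd] at hs hH ⊢
  rw [← hLd] at hL ⊢
  have hXX : s * s = X := by rw [hsd]; exact Real.mul_self_sqrt (Nat.cast_nonneg X)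
  have hK0 : (0 : ℝ) ≤ K := Nat.cast_nonneg K
  have hx00 : (0 : ℝ) ≤ x₀ := Nat.cast_nonneg x₀
  have hs8 : 8 ≤ s := by linarith
  have hs0 : 0 < s := by linarith
  have hL4 : 4 ≤ L := hM1.trans hL
  have hL0 : 0 < L := by linarith
  have hX0 : (0 : ℝ) < X := by rw [← hXX]; positivity
  -- `x`
  obtain ⟨x, hxd⟩ : ∃ x : ℕ, x = ⌈((K : ℝ) + 1) * s⌉₊ := ⟨_, rfl⟩
  have hx1 : ((K : ℝ) + 1) * s ≤ x := by rw [hxd]; exact Nat.le_ceil _
  have hx2 : (x : ℝ) ≤ ((K : ℝ) + 2) * s := by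
    have : (x : ℝ) < ((K : ℝ) + 1) * s + 1 := by
      rw [hxd]; exact Nat.ceil_lt_add_one (by positivity)
    linarith only [this, hs8]
  have hsx : s ≤ x := by
    have : 0 ≤ (K : ℝ) * s := by positivity
    linarith only [this, hx1]
  have hxX : (x : ℝ) ≤ X := by
    rw [← hXX]
    refine hx2.trans ?_
    have : (K : ℝ) + 2 ≤ s := by linarith
    gcongr
  have hx₀ : x₀ ≤ x := by
    have : (x₀ : ℝ) ≤ x := by linarith
    exact_mod_cast this
  have hHx : H ≤ x := by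
    have : (H : ℝ) ≤ x := by linarith only [hx1, hH, hs0]
    exact_mod_cast this
  have hH4 : 4 * H ≤ X := by
    have : (4 : ℝ) * H ≤ X := by
      rw [← hXX]
      have h1 : (4 * (K : ℝ)) * s ≤ s * s :=
        mul_le_mul_of_nonneg_right (by linarith only [hs, hx00]) hs0.le
      linarith only [h1, hH]
    exact_mod_cast this
  have hX16 : 16 ≤ X := by omega
  have hX1' : (1 : ℝ) ≤ X := by exact_mod_cast (by omega : 1 ≤ X)
  -- `ℓ = log x`
  obtain ⟨l, hld⟩ : ∃ l : ℝ, l = Real.log x := ⟨_, rfl⟩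
  have hl1 : L / 2 ≤ l := by
    rw [hld]; exact fn1_log2 X s L x hsd hLd (by linarith) hsx
  have hl2 : l ≤ L := by
    rw [hld, hLd]; exact Real.log_le_log (by linarith) hxX
  have hl0 : 2 ≤ l := by linarith
  -- `Q`
  obtain ⟨Q, hQd⟩ : ∃ Q : ℕ, Q = ⌈l ^ B⌉₊ := ⟨_, rfl⟩
  have hQ1 : l ^ B ≤ Q := by rw [hQd]; exact Nat.le_ceil _
  have hQ2 : (Q : ℝ) ≤ l ^ (B + 1) := by
    have h1 : (Q : ℝ) < l ^ B + 1 := by
      rw [hQd]; exact Nat.ceil_lt_add_one (by positivity)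
    have h2 : (1 : ℝ) ≤ l ^ B := one_le_pow₀ (by linarith)
    rw [pow_succ]
    have h3 : l ^ B * 2 ≤ l ^ B * l := mul_le_mul_of_nonneg_left hl0 (by positivity)
    linarith only [h1, h2, h3]
  have hQL : (Q : ℝ) ≤ L ^ (B + 1) :=
    hQ2.trans (pow_le_pow_left₀ (by linarith) hl2 _)
  have hQ0 : 1 ≤ Q := by
    have h2 : (1 : ℝ) ≤ l ^ B := one_le_pow₀ (by linarith)
    exact_mod_cast h2.trans hQ1
  -- the three parts
  obtain ⟨S1, hS1⟩ : ∃ S1 : ℕ → ℝ, S1 = fun N => ∑ n ∈ Ioc 0 H, (th n - LQ Q n) * th (N - n) :=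
    ⟨_, rfl⟩
  obtain ⟨S2, hS2⟩ : ∃ S2 : ℕ → ℝ, S2 = fun N => ∑ n ∈ Ioc 0 H, LQ Q n * th (N - n) - H * SQ Q N :=
    ⟨_, rfl⟩
  obtain ⟨S3, hS3⟩ : ∃ S3 : ℕ → ℝ, S3 = fun N => (H : ℝ) * (SQ Q N - SS N) := ⟨_, rfl⟩
  obtain ⟨T, hT⟩ : ∃ T : ℝ, T = s / (3 * L ^ A) := ⟨_, rfl⟩
  have hT0 : 0 < T := by rw [hT]; positivity
  have hT2 : T ^ 2 = X / (9 * (L ^ A) ^ 2) := by
    rw [hT, ← hXX]; field_simp; ring
  -- part 1
  have c1 : (((Ioc X (2 * X)).filter (fun N => T < |S1 N|)).card : ℝ) ≤ X / (3 * L ^ A) := by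
    have h1 := fn1_markov2 (Ioc X (2 * X)) S1 T hT0
    have h2 : ∑ N ∈ Ioc X (2 * X), S1 N ^ 2 ≤
        ((x : ℝ) / l ^ (2 * A + 6)) ^ 2 * (2 * X * Real.log (2 * X) ^ 2) := by
      rw [hS1]
      apply fn1_p1 hCnv (fun n => th n - LQ Q n) X H _ (by omega) (by omega)
      intro α
      have h3 := hD x Q hx₀ (by rw [← hld]; exact hQ1) (by rw [← hld]; exact hQ2) α H hHx
      rw [← hld] at h3
      exact h3
    have h3 : (x : ℝ) / l ^ (2 * A + 6) ≤ ((K : ℝ) + 2) * s * 2 ^ (2 * A + 6) / L ^ (2 * A + 6) := by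
      rw [div_le_div_iff₀ (by positivity) (by positivity)]
      have h4 : L ^ (2 * A + 6) ≤ 2 ^ (2 * A + 6) * l ^ (2 * A + 6) := by
        rw [← mul_pow]
        exact pow_le_pow_left₀ hL0.le (by linarith) _
      calc (x : ℝ) * L ^ (2 * A + 6) ≤ (((K : ℝ) + 2) * s) * (2 ^ (2 * A + 6) * l ^ (2 * A + 6)) := by
            gcongr
        _ = ((K : ℝ) + 2) * s * 2 ^ (2 * A + 6) * l ^ (2 * A + 6) := by ring
    have h4 : Real.log (2 * X) ≤ 2 * L := by
      rw [Real.log_mul (by norm_num) (by positivity), ← hLd]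
      have : Real.log 2 < 1 := by
        have := Real.log_two_lt_d9
        linarith
      linarith
    have h4' : 0 ≤ Real.log (2 * X) := Real.log_nonneg (by linarith)
    have h5 : ∑ N ∈ Ioc X (2 * X), S1 N ^ 2 ≤
        (((K : ℝ) + 2) * s * 2 ^ (2 * A + 6) / L ^ (2 * A + 6)) ^ 2 * (2 * X * (2 * L) ^ 2) := by
      refine h2.trans ?_
      gcongr
    have h6 : (((K : ℝ) + 2) * s * 2 ^ (2 * A + 6) / L ^ (2 * A + 6)) ^ 2 * (2 * X * (2 * L) ^ 2) ≤
        X / (3 * L ^ A) * T ^ 2 := by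
      rw [hT2]
      have h7 : 216 * ((K : ℝ) + 2) ^ 2 * 4 ^ (2 * A + 6) * L ^ (3 * A + 2) ≤ L ^ (4 * A + 12) :=
        fn1_pow _ L _ _ (by linarith) (hM2.trans hL) (by omega)
      have h8 : (((K : ℝ) + 2) * s * 2 ^ (2 * A + 6) / L ^ (2 * A + 6)) ^ 2 * (2 * X * (2 * L) ^ 2) =
          (8 * ((K : ℝ) + 2) ^ 2 * 4 ^ (2 * A + 6) * L ^ 2 * (X : ℝ) ^ 2) / L ^ (4 * A + 12) := by
        have h9 : (4 : ℝ) ^ (2 * A + 6) = (2 ^ (2 * A + 6)) ^ 2 := by
          rw [← pow_mul, mul_comm (2 * A + 6) 2, pow_mul]; norm_num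
        have h10 : L ^ (4 * A + 12) = (L ^ (2 * A + 6)) ^ 2 := by
          rw [← pow_mul]; congr 1; ring
        rw [h9, h10, div_pow, ← hXX]
        field_simp
        ring
      rw [h8]
      have h11 : (X : ℝ) / (3 * L ^ A) * (X / (9 * (L ^ A) ^ 2)) = (X : ℝ) ^ 2 / (27 * L ^ (3 * A)) := by
        have : L ^ (3 * A) = (L ^ A) ^ 3 := by rw [← pow_mul]; congr 1; ring
        rw [this]
        field_simp
        ring
      rw [h11, div_le_div_iff₀ (by positivity) (by positivity)]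
      calc 8 * ((K : ℝ) + 2) ^ 2 * 4 ^ (2 * A + 6) * L ^ 2 * (X : ℝ) ^ 2 * (27 * L ^ (3 * A))
          = (X : ℝ) ^ 2 * (216 * ((K : ℝ) + 2) ^ 2 * 4 ^ (2 * A + 6) * L ^ (3 * A + 2)) := by ring
        _ ≤ (X : ℝ) ^ 2 * L ^ (4 * A + 12) := by gcongr
    have h7 := h1.trans (h5.trans h6)
    exact le_of_mul_le_mul_right h7 (by positivity)
  -- part 2
  have c2 : (((Ioc X (2 * X)).filter (fun N => T < |S2 N|)).card : ℝ) ≤ X / (3 * L ^ A) := by
    have h1 := fn1_markov2 (Ioc X (2 * X)) S2 T hT0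
    have hwin : ∀ (q u Y : ℕ), 1 ≤ q → q ≤ Q → Y0 ≤ Y → (X : ℝ) / 4 ≤ Y → Y ≤ X →
        ∑ M ∈ Ioc Y (2 * Y), DD H q u M ^ 2 ≤
          (X : ℝ) ^ 2 * 2 ^ (3 * A + 4 * B + 5) / L ^ (3 * A + 4 * B + 5) := by
      intro q u Y hq hqQ hY0 hY1 hY2
      have hsY0 : 8 * s ≤ s * s := mul_le_mul_of_nonneg_right hs8 hs0.le
      have hsY : s ≤ Y := by linarith only [hsY0, hXX, hY1, hs0]
      have hlY : L / 2 ≤ Real.log Y := fn1_log2 X s L Y hsd hLd (by linarith) hsY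
      have h3 : (q : ℝ) ≤ Real.log Y ^ (B + 2) := by
        calc (q : ℝ) ≤ Q := by exact_mod_cast hqQ
          _ ≤ L ^ (B + 1) := hQL
          _ ≤ (L / 2) ^ (B + 2) := by
              rw [div_pow, le_div_iff₀ (by positivity), mul_comm]
              exact fn1_pow _ L _ _ (by linarith) (hM5.trans hL) (by omega)
          _ ≤ Real.log Y ^ (B + 2) := pow_le_pow_left₀ (by linarith) hlY _
      have h4 : (H : ℝ) ≤ ((2 * K : ℕ) : ℝ) * √(Y : ℝ) := by
        have h5 : s / 2 ≤ √(Y : ℝ) := by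
          apply Real.le_sqrt_of_sq_le
          have h6 : (s / 2) ^ 2 = s * s / 4 := by ring
          rw [h6, hXX]
          exact hY1
        push_cast
        have h7 : (K : ℝ) * (s / 2) ≤ K * √(Y : ℝ) := mul_le_mul_of_nonneg_left h5 hK0
        linarith only [hH, h7]
      have h5 := hW Y hY0 q u H hq h3 h4
      have h6 : ∑ M ∈ Ioc Y (2 * Y), DD H q u M ^ 2 ≤
          (Y : ℝ) ^ 2 / Real.log Y ^ (3 * A + 4 * B + 5) := h5
      refine h6.trans ?_
      have hY2' : (Y : ℝ) ≤ X := by exact_mod_cast hY2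
      have hlY0 : 0 < Real.log Y := by linarith only [hlY, hL0]
      rw [div_le_div_iff₀ (pow_pos hlY0 _) (by positivity)]
      have h7 : L ^ (3 * A + 4 * B + 5) ≤ 2 ^ (3 * A + 4 * B + 5) * Real.log Y ^ (3 * A + 4 * B + 5) := by
        rw [← mul_pow]
        exact pow_le_pow_left₀ hL0.le (by linarith) _
      calc (Y : ℝ) ^ 2 * L ^ (3 * A + 4 * B + 5)
          ≤ (X : ℝ) ^ 2 * (2 ^ (3 * A + 4 * B + 5) * Real.log Y ^ (3 * A + 4 * B + 5)) := by
            gcongr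
        _ = (X : ℝ) ^ 2 * 2 ^ (3 * A + 4 * B + 5) * Real.log Y ^ (3 * A + 4 * B + 5) := by ring
    have hE : ∀ q u : ℕ, 1 ≤ q → q ≤ Q → ∑ N ∈ Ioc X (2 * X), EE N H q u ^ 2 ≤
        3 * ((X : ℝ) ^ 2 * 2 ^ (3 * A + 4 * B + 5) / L ^ (3 * A + 4 * B + 5)) := by
      intro q u hq hqQ
      have h2 := fn1_p2 X H q u hH4 hX16
      have hhalf : (X : ℝ) / 4 ≤ ((X / 2 : ℕ) : ℝ) := by
        have : X ≤ 4 * (X / 2) := by omega
        have : (X : ℝ) ≤ 4 * ((X / 2 : ℕ) : ℝ) := by exact_mod_cast this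
        linarith
      have h3 := hwin q u (X / 2) hq hqQ (by omega) hhalf (by omega)
      have h4 := hwin q u (X / 2 + 1) hq hqQ (by omega) (by push_cast; linarith) (by omega)
      have h5 := hwin q u X hq hqQ (by omega) (by linarith) le_rfl
      linarith
    have h2 := fn1_p2' X H Q _ hE (by positivity)
    have h3 : ∑ N ∈ Ioc X (2 * X), S2 N ^ 2 ≤
        ∑ N ∈ Ioc X (2 * X), (∑ q ∈ Icc 1 Q, ∑ u ∈ range q, |EE N H q u|) ^ 2 := by
      apply Finset.sum_le_sum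
      intro N hN
      have hN' := Finset.mem_Ioc.mp hN
      have h4 := hMnq Q N H (by omega)
      rw [hS2, ← sq_abs]
      exact pow_le_pow_left₀ (abs_nonneg _) h4 2
    have h4 : (Q : ℝ) ^ 2 * ((Q : ℝ) ^ 2 *
        (3 * ((X : ℝ) ^ 2 * 2 ^ (3 * A + 4 * B + 5) / L ^ (3 * A + 4 * B + 5)))) ≤
        X / (3 * L ^ A) * T ^ 2 := by
      rw [hT2]
      have h5 : 81 * (2 : ℝ) ^ (3 * A + 4 * B + 5) * L ^ (3 * A + 4 * B + 4) ≤
          L ^ (3 * A + 4 * B + 5) :=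
        fn1_pow _ L _ _ (by linarith) (hM3.trans hL) (by omega)
      have h6 : (Q : ℝ) ^ 4 ≤ L ^ (4 * B + 4) := by
        calc (Q : ℝ) ^ 4 ≤ (L ^ (B + 1)) ^ 4 := by gcongr
          _ = L ^ (4 * B + 4) := by rw [← pow_mul]; congr 1; ring
      have h11 : (X : ℝ) / (3 * L ^ A) * (X / (9 * (L ^ A) ^ 2)) = (X : ℝ) ^ 2 / (27 * L ^ (3 * A)) := by
        have : L ^ (3 * A) = (L ^ A) ^ 3 := by rw [← pow_mul]; congr 1; ring
        rw [this]
        field_simp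
        ring
      have h12 : (Q : ℝ) ^ 2 * ((Q : ℝ) ^ 2 *
          (3 * ((X : ℝ) ^ 2 * 2 ^ (3 * A + 4 * B + 5) / L ^ (3 * A + 4 * B + 5)))) =
          ((Q : ℝ) ^ 4 * (3 * (X : ℝ) ^ 2 * 2 ^ (3 * A + 4 * B + 5))) / L ^ (3 * A + 4 * B + 5) := by
        ring
      rw [h11, h12, div_le_div_iff₀ (by positivity) (by positivity)]
      calc (Q : ℝ) ^ 4 * (3 * (X : ℝ) ^ 2 * 2 ^ (3 * A + 4 * B + 5)) * (27 * L ^ (3 * A))
          ≤ L ^ (4 * B + 4) * (3 * (X : ℝ) ^ 2 * 2 ^ (3 * A + 4 * B + 5)) * (27 * L ^ (3 * A)) := by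
            gcongr
        _ = (X : ℝ) ^ 2 * (81 * (2 : ℝ) ^ (3 * A + 4 * B + 5) * L ^ (3 * A + 4 * B + 4)) := by ring
        _ ≤ (X : ℝ) ^ 2 * L ^ (3 * A + 4 * B + 5) := by gcongr
    have h7 := h1.trans (h3.trans (h2.trans h4))
    exact le_of_mul_le_mul_right h7 (by positivity)
  -- part 3
  have c3 : ((((Ioc X (2 * X)).filter (fun N => Even N)).filter (fun N => T < |S3 N|)).card : ℝ) ≤
      X / (3 * L ^ A) := by
    have h1 := fn1_markov1 ((Ioc X (2 * X)).filter (fun N => Even N)) S3 T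
    have h2 : ∑ N ∈ (Ioc X (2 * X)).filter (fun N => Even N), |S3 N| ≤
        (K * s) * (C * (2 * X) / √(Q : ℝ)) := by
      calc ∑ N ∈ (Ioc X (2 * X)).filter (fun N => Even N), |S3 N|
          = ∑ N ∈ (Ioc X (2 * X)).filter (fun N => Even N), (H : ℝ) * |SS N - SQ Q N| := by
            apply Finset.sum_congr rfl
            intro N _
            rw [hS3]
            simp only
            rw [abs_mul, abs_sub_comm, abs_of_nonneg (Nat.cast_nonneg H : (0 : ℝ) ≤ H)]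
        _ = (H : ℝ) * ∑ N ∈ (Ioc X (2 * X)).filter (fun N => Even N), |SS N - SQ Q N| := by
            rw [Finset.mul_sum]
        _ ≤ (K * s) * ∑ N ∈ (Icc 1 (2 * X)).filter (fun N => Even N), |SS N - SQ Q N| := by
            apply mul_le_mul hH _ (Finset.sum_nonneg (fun _ _ => abs_nonneg _)) (by positivity)
            apply Finset.sum_le_sum_of_subset_of_nonneg
            · intro N hN
              have hN1 := Finset.mem_filter.mp hN
              have hN2 := Finset.mem_Ioc.mp hN1.1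
              exact Finset.mem_filter.mpr ⟨Finset.mem_Icc.mpr ⟨by omega, hN2.2⟩, hN1.2⟩
            · intro _ _ _
              exact abs_nonneg _
        _ ≤ (K * s) * (C * (2 * X) / √(Q : ℝ)) := by
            have h3 := hS Q (2 * X) hQ0
            push_cast at h3
            gcongr
    have h3 : (L / 2) ^ (2 * A + 10) ≤ √(Q : ℝ) := by
      apply Real.le_sqrt_of_sq_le
      calc ((L / 2) ^ (2 * A + 10)) ^ 2 = (L / 2) ^ (4 * A + 20) := by
            rw [← pow_mul]; congr 1; ring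
        _ ≤ l ^ (4 * A + 20) := pow_le_pow_left₀ (by linarith) hl1 _
        _ ≤ l ^ B := pow_le_pow_right₀ (by linarith) hB
        _ ≤ Q := hQ1
    have h4 : (K * s) * (C * (2 * X) / √(Q : ℝ)) ≤ X / (3 * L ^ A) * T := by
      calc (K * s) * (C * (2 * X) / √(Q : ℝ)) ≤ (K * s) * (C * (2 * X) / (L / 2) ^ (2 * A + 10)) := by
            gcongr
        _ ≤ X / (3 * L ^ A) * T := by
            rw [hT]
            have h5 : 18 * K * C * 2 ^ (2 * A + 10) * L ^ (2 * A) ≤ L ^ (2 * A + 10) :=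
              fn1_pow _ L _ _ (by linarith) (hM4.trans hL) (by omega)
            have h6 : (K * s) * (C * (2 * X) / (L / 2) ^ (2 * A + 10)) =
                (2 * K * C * 2 ^ (2 * A + 10) * s * X) / L ^ (2 * A + 10) := by
              rw [div_pow]
              field_simp
            have h7 : (X : ℝ) / (3 * L ^ A) * (s / (3 * L ^ A)) = s * X / (9 * L ^ (2 * A)) := by
              have : L ^ (2 * A) = (L ^ A) ^ 2 := by rw [← pow_mul]; congr 1; ring
              rw [this]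
              field_simp
              ring
            rw [h6, h7, div_le_div_iff₀ (by positivity) (by positivity)]
            calc 2 * K * C * 2 ^ (2 * A + 10) * s * X * (9 * L ^ (2 * A))
                = s * X * (18 * K * C * 2 ^ (2 * A + 10) * L ^ (2 * A)) := by ring
              _ ≤ s * X * L ^ (2 * A + 10) := by gcongr
    have h7 := h1.trans (h2.trans h4)
    exact le_of_mul_le_mul_right h7 hT0
  -- union
  have hsub : (Ioc X (2 * X)).filter (fun N => Even N ∧ s / L ^ A <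
      |∑ n ∈ (Ioc 0 H).filter (fun n => n < N), th n * th (N - n) - SS N * H|) ⊆
      ((Ioc X (2 * X)).filter (fun N => T < |S1 N|) ∪
        (Ioc X (2 * X)).filter (fun N => T < |S2 N|)) ∪
        ((Ioc X (2 * X)).filter (fun N => Even N)).filter (fun N => T < |S3 N|) := by
    intro N hN
    obtain ⟨hN1, hN2, hN3⟩ := Finset.mem_filter.mp hN
    have hN' := Finset.mem_Ioc.mp hN1
    have h1 : (Ioc 0 H).filter (fun n => n < N) = Ioc 0 H := by
      apply Finset.filter_true_of_mem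
      intro n hn
      have hn' := Finset.mem_Ioc.mp hn
      omega
    have h2 : ∑ n ∈ (Ioc 0 H).filter (fun n => n < N), th n * th (N - n) - SS N * H =
        S1 N + S2 N + S3 N := by
      rw [h1, hS1, hS2, hS3]
      simp only [sub_mul, Finset.sum_sub_distrib]
      ring
    rw [h2] at hN3
    have h3 : s / L ^ A = 3 * T := by
      rw [hT]
      field_simp
    rw [h3] at hN3
    simp only [Finset.mem_union, Finset.mem_filter]
    by_contra hcon
    push Not at hcon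
    obtain ⟨⟨h5, h6⟩, h7⟩ := hcon
    have h5' := h5 hN1
    have h6' := h6 hN1
    have h7' := h7 ⟨hN1, hN2⟩
    have h8 : |S1 N + S2 N + S3 N| ≤ |S1 N| + |S2 N| + |S3 N| := abs_add_three _ _ _
    linarith
  have hcard := Finset.card_le_card hsub
  have hcard2 := hcard.trans (Finset.card_union_le _ _)
  have hcard3 := Finset.card_union_le ((Ioc X (2 * X)).filter (fun N => T < |S1 N|))
    ((Ioc X (2 * X)).filter (fun N => T < |S2 N|))
  have hcard4 : (((Ioc X (2 * X)).filter (fun N => Even N ∧ s / L ^ A <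
      |∑ n ∈ (Ioc 0 H).filter (fun n => n < N), th n * th (N - n) - SS N * H|)).card : ℝ) ≤
      (((Ioc X (2 * X)).filter (fun N => T < |S1 N|)).card : ℝ) +
      (((Ioc X (2 * X)).filter (fun N => T < |S2 N|)).card : ℝ) +
      ((((Ioc X (2 * X)).filter (fun N => Even N)).filter (fun N => T < |S3 N|)).card : ℝ) := by
    exact_mod_cast hcard2.trans (Nat.add_le_add_right hcard3 _)
  refine hcard4.trans ?_
  have hfin : (X : ℝ) / (3 * L ^ A) + X / (3 * L ^ A) + X / (3 * L ^ A) = X / L ^ A := by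
    field_simp
    ring
  linarith

end Pool.Agent.Helper57.GK
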